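import Pool.Agent.H23.RDD.Targets

set_option autoImplicit false

namespace Pool.Agent.H1.RDD

open Pool.Agent.H23.RDD Pool.Agent.H24.RD NumberField Height Finset Polynomial

theorem pf_KP : T_POW → T_PF → T_RS → T_LA → T_KP := by
  intro hPOW hPF hRS hLA E M _ _ _ _ _ p hp T d hT hd S _ hS t ht f ι _ hι b hb hf z hz
  by_cases hex : ∃ s j, (z s) ^ (p ^ (3 * T * d + 2)) = (b j) ^ (p ^ (3 * T * d + 2))
  · exact Or.inl hex
  right
  push Not at hex
  have hTd : 1 ≤ T * d := Nat.mul_pos hT hd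
  have hp0 : (p : M) ≠ 0 := by exact_mod_cast hp.ne_zero
  have hU : ∀ q : S × ι, ((z q.1 / b q.2) ^ (p ^ (3 * T * d + 2)) : M) ≠ 1 := by
    intro q h
    rw [div_pow, div_eq_one_iff_eq (pow_ne_zero _ (hb q.2))] at h
    exact hex q.1 q.2 h
  have hloc : ∀ w : FinitePlace M, w.1 (p : M) < 1 →
      ∃ q : S × ι, w.1 ((z q.1 / b q.2) ^ (p ^ (3 * T * d + 2)) - 1) ≤ w.1 (p : M) ^ (T * d + 2) *
        (max (w.1 ((z q.1 / b q.2) ^ (p ^ (3 * T * d + 2)))) 1 * max (w.1 (1 : M)) 1) := by
    intro w hw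
    have hna : IsNonarchimedean w.1 := fun x y => FinitePlace.add_le w x y
    have hwp : 0 < w.1 (p : M) := w.1.pos hp0
    obtain ⟨v, k, hk, hvk⟩ := hRS E M w
    have hwpv : w.1 (p : M) = (v.1 (p : E)) ^ k := by
      rw [← hvk, map_natCast (algebraMap E M)]
    have hvp : v.1 (p : E) < 1 := by
      by_contra hcon
      push Not at hcon
      have := Real.one_le_rpow hcon hk.le
      rw [← hwpv] at this
      linarith
    have hvp0 : 0 ≤ v.1 (p : E) := v.1.nonneg _
    obtain ⟨s, hs⟩ := ht v hvp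
    set ε : ℝ := w.1 (p : M) ^ (1 / ((2 * T : ℕ) : ℝ)) with hε
    have h2T : (0 : ℝ) < ((2 * T : ℕ) : ℝ) := by
      have : 0 < 2 * T := by omega
      exact_mod_cast this
    have hε0 : 0 < ε := Real.rpow_pos_of_pos hwp _
    have hε1 : ε < 1 := Real.rpow_lt_one hwp.le hw (by positivity)
    have hcl : ∀ x : E, x ≠ 0 → w.1 (algebraMap E M (t s x / x - 1)) ≤ ε := by
      intro x hx
      rw [hvk, hε, hwpv, ← Real.rpow_mul hvp0, mul_comm k, Real.rpow_mul hvp0]
      exact Real.rpow_le_rpow (v.1.nonneg _) (hs x hx) hk.le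
    obtain ⟨j, hj⟩ := hLA M w.1 hna d ε hd hε0 hε1 ι hι b hb
      ((f.map (t s : E →+* E)).map (algebraMap E M)) (z s) (by
        rw [eval_map]
        exact hz s) (by
        intro n
        rw [← hf, coeff_map, coeff_map, coeff_map, ← map_sub]
        by_cases h0 : f.coeff n = 0
        · rw [h0]
          simp
        · have e1 : (t s : E →+* E) (f.coeff n) - f.coeff n =
              (t s (f.coeff n) / f.coeff n - 1) * f.coeff n := by
            rw [sub_mul, div_mul_cancel₀ _ h0, one_mul]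
            rfl
          rw [e1, map_mul, map_mul]
          exact mul_le_mul_of_nonneg_right (hcl _ h0) (w.1.nonneg _))
    refine ⟨(s, j), ?_⟩
    have h2Td : 1 ≤ 2 * T * d := by
      rw [mul_assoc]
      omega
    have he : ε ^ (1 / (d : ℝ)) = w.1 (p : M) ^ (1 / ((2 * T * d : ℕ) : ℝ)) := by
      rw [hε, ← Real.rpow_mul hwp.le]
      congr 1
      have hd0 : (d : ℝ) ≠ 0 := by exact_mod_cast hd.ne'
      push_cast
      have hT0 : (T : ℝ) ≠ 0 := by
        have : T ≠ 0 := by omega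
        exact_mod_cast this
      field_simp
    have hpow := hPOW M w.1 hna p hp hw (2 * T * d) h2Td (z s / b j) 1 (by
      rw [← he, map_one, max_self, mul_one]
      exact hj) (T * d + 2)
    have hexp : 2 * T * d + (T * d + 2) = 3 * T * d + 2 := by ring
    rw [hexp, one_pow] at hpow
    exact hpow
  have hpf := hPF M p hp (S × ι) (fun q => (z q.1 / b q.2) ^ (p ^ (3 * T * d + 2))) (fun _ => 1) hU
    (T * d + 2) hloc
  have hd0 : 0 < (Module.finrank ℚ M : ℝ) := by exact_mod_cast Module.finrank_pos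
  have hsum : ∑ q : S × ι, (logHeight₁ ((z q.1 / b q.2) ^ (p ^ (3 * T * d + 2)) : M) +
      logHeight₁ (1 : M)) = ∑ s, ∑ j, logHeight₁ ((z s / b j) ^ (p ^ (3 * T * d + 2))) := by
    rw [Fintype.sum_prod_type]
    simp only [logHeight₁_one, add_zero]
  rw [hsum] at hpf
  refine le_trans ?_ hpf
  refine mul_le_mul_of_nonneg_left ?_ hd0.le
  have hlog2 : 0 < Real.log 2 := Real.log_pos (by norm_num)
  have hlogp : Real.log 2 ≤ Real.log p :=
    Real.log_le_log (by norm_num) (by exact_mod_cast hp.two_le)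
  have hcard : (Fintype.card (S × ι) : ℝ) ≤ (T : ℝ) * d := by
    rw [Fintype.card_prod]
    push_cast
    exact mul_le_mul (by exact_mod_cast hS) (by exact_mod_cast hι) (by positivity) (by positivity)
  push_cast
  have e4 : ((T : ℝ) * d + 2) * Real.log 2 ≤ ((T : ℝ) * d + 2) * Real.log p :=
    mul_le_mul_of_nonneg_left hlogp (by positivity)
  have e5 : (Fintype.card (S × ι) : ℝ) * Real.log 2 ≤ (T : ℝ) * d * Real.log 2 :=
    mul_le_mul_of_nonneg_right hcard hlog2.le
  linarith

end Pool.Agent.H1.RDD
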