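import Pool.Agent.H23.RDD.Targets

set_option autoImplicit false

namespace Pool.Agent.H1.RDD

open Pool.Agent.H23.RDD Pool.Agent.H24.RD NumberField Height Finset Polynomial

theorem pf_STCD : T_LVB → T_MON → T_KEYD → T_STCC → T_STCD := by
  intro hLVB hMON hKEY hSTCC F Ω _ _ _ _ _ _ _ p hp r γ hγ d hd
  have : IsAlgClosure F Ω := ⟨inferInstance, inferInstance⟩
  have : Normal F Ω := IsAlgClosure.normal F Ω
  obtain ⟨C, hC⟩ := hKEY F Ω p hp r γ hγ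
  obtain ⟨δ, lam, n0, hδ, hkey⟩ := hC (C + 1) d hd
  refine ⟨C + 1, n0 + 2 * (C + 1) + lam + 2, δ, hδ, ?_⟩
  rintro n m N' K' hn hmn hN' hK' α ⟨β, hβ, hβM, hRed, g, ⟨hg0, j, hj, x, hgj⟩, rfl⟩ hh
  have hγΩ : ∀ i, algebraMap F Ω (γ i) ≠ 0 := fun i => by
    rw [Ne, map_eq_zero]
    exact hγ i
  have hpn : ∀ k : ℕ, p ^ k ≠ 0 := fun k => pow_ne_zero _ hp.ne_zero
  have hN0 : N' ≠ 0 := by
    rintro rfl
    exact hN' (dvd_zero p)
  have hK0 : K' ≠ 0 := by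
    rintro rfl
    exact hN0 (Nat.eq_zero_of_zero_dvd hK')
  have hL : Lev C (C + 1) n0 p n (n - (C + 1)) (n - (C + 1)) (n - 1) N' K' :=
    ⟨by omega, by omega, by omega, by omega, by omega, by omega, hN', hK'⟩
  set n1 := n - (C + 1) with hn1
  have hβMt : Cj F Ω (Lv F Ω γ (p ^ n * N') (p ^ n1 * K')) d β := by
    refine (hMON F Ω r γ hγ (p ^ n * N') (p ^ m * K') (p ^ n * N') (p ^ n1 * K') d
      (Nat.pos_of_ne_zero (mul_ne_zero (hpn _) hN0)) (Nat.pos_of_ne_zero (mul_ne_zero (hpn _) hK0))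
      dvd_rfl ?_ ?_ (Nat.pos_of_ne_zero (mul_ne_zero (hpn _) hN0)) β).1 d hβM
    · exact Nat.mul_dvd_mul (pow_dvd_pow p (by omega)) dvd_rfl
    · exact Nat.mul_dvd_mul (pow_dvd_pow p (by omega)) hK'
  obtain ⟨τ, t, htV, ⟨ξ, hξ, htξ⟩, hcomm, hβτ⟩ := hkey n n1 n1 (n - 1) N' K' hL β hβ hβMt g hg0
    ⟨j, ∏ i, γ i ^ x i, hj, by rw [hgj, map_prod]; simp only [map_zpow₀]⟩ hh
  have hgen1 : ∀ y : Ω, y ^ (p ^ n * N') = 1 → y ∈ Lv F Ω γ (p ^ n * N') (p ^ n1 * K') :=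
    fun y hy => IntermediateField.subset_adjoin _ _ (Or.inl hy)
  have hgen2 : ∀ y : Ω, (∃ i, y ^ (p ^ n1 * K') = algebraMap F Ω (γ i)) →
      y ∈ Lv F Ω γ (p ^ n * N') (p ^ n1 * K') :=
    fun y hy => IntermediateField.subset_adjoin _ _ (Or.inr hy)
  have hτ : ∀ y : Ω, (y ^ N' = 1 ∨ y ^ (p ^ n1) = 1 ∨
      (∃ i, y ^ (p ^ n1) = algebraMap F Ω (γ i)) ∨ (∃ i, y ^ K' = algebraMap F Ω (γ i))) →
      τ y = y := by
    intro y hy
    have hyM : y ∈ Lv F Ω γ (p ^ n * N') (p ^ n1 * K') := by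
      rcases hy with hy | hy | ⟨i, hy⟩ | ⟨i, hy⟩
      · apply hgen1
        rw [mul_comm, pow_mul, hy, one_pow]
      · apply hgen1
        have : p ^ n = p ^ n1 * p ^ (n - n1) := by
          rw [← pow_add]
          congr 1
          omega
        rw [this, mul_assoc, pow_mul, hy, one_pow]
      · obtain ⟨z, hz⟩ := IsAlgClosed.exists_pow_nat_eq y (Nat.pos_of_ne_zero hK0)
        rw [← hz]
        apply pow_mem
        apply hgen2
        refine ⟨i, ?_⟩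
        rw [mul_comm, pow_mul, hz, hy]
      · obtain ⟨z, hz⟩ := IsAlgClosed.exists_pow_nat_eq y (Nat.pos_of_ne_zero (hpn n1))
        rw [← hz]
        apply pow_mem
        apply hgen2
        refine ⟨i, ?_⟩
        rw [pow_mul, hz, hy]
    have h1 : t ⟨y, hyM⟩ = ⟨y, hyM⟩ := by
      apply htV
      rcases hy with hy | hy | ⟨i, hy⟩ | ⟨i, hy⟩
      · exact Or.inl ⟨N', hN', Subtype.ext hy⟩
      · exact Or.inr (Or.inl (Subtype.ext hy))
      · exact Or.inr (Or.inr (Or.inl ⟨i, Subtype.ext hy⟩))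
      · exact Or.inr (Or.inr (Or.inr ⟨i, Subtype.ext hy⟩))
    have h2 := hcomm ⟨y, hyM⟩
    rw [h1] at h2
    exact h2
  have hne : ((p ^ n : ℕ) : Ω) ≠ 0 := by exact_mod_cast hpn n
  have : NeZero ((p ^ n : ℕ) : Ω) := ⟨hne⟩
  have : NeZero (p ^ n) := ⟨hpn n⟩
  obtain ⟨ζ, hζ⟩ := HasEnoughRootsOfUnity.exists_primitiveRoot Ω (p ^ n)
  have hτζ : τ ζ ≠ ζ := by
    intro h
    apply htξ
    have e0 : ∀ z : Ω, z ^ (p ^ (n - 1)) = 1 → z ^ (p ^ n) = 1 := by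
      intro z hz
      have : p ^ n = p ^ (n - 1) * p ^ 1 := by
        rw [← pow_add]
        congr 1
        omega
      rw [this, pow_mul, hz, one_pow]
    have hξ1 : (ξ : Ω) ^ (p ^ n) = 1 := e0 _
      (congrArg (fun z : Lv F Ω γ (p ^ n * N') (p ^ n1 * K') => (z : Ω)) hξ)
    obtain ⟨k, -, hk⟩ := hζ.eq_pow_of_pow_eq_one hξ1
    apply Subtype.ext
    rw [← hcomm ξ, ← hk, map_pow, h]
  obtain ⟨i, hi, hri⟩ := hSTCC F Ω p hp r γ hγ n m n1 (C + 1) lam N' K' (by omega) (by omega)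
    (by omega) (by omega) (by omega) (by omega) hN' hK' τ hτ ζ hζ hτζ d β hβ hβM hRed hβτ
  have hζ0 : ζ ≠ 0 := hζ.ne_zero (hpn n)
  refine ⟨β / ζ ^ i, div_ne_zero hβ (pow_ne_zero _ hζ0), hi, hri, ζ ^ i * g,
    ⟨mul_ne_zero (pow_ne_zero _ hζ0) hg0, p ^ n * j, Nat.mul_pos (Nat.pos_of_ne_zero (hpn n)) hj,
      fun i => (p ^ n : ℕ) * x i, ?_⟩, ?_⟩
  · have e1 : (ζ ^ i) ^ (p ^ n) = 1 := by
      rw [← pow_mul, mul_comm, pow_mul, hζ.pow_eq_one, one_pow]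
    rw [mul_pow, pow_mul, e1, one_pow, one_mul, mul_comm, pow_mul, hgj, ← Finset.prod_pow]
    apply Finset.prod_congr rfl
    intro l _
    rw [← zpow_natCast, ← zpow_mul, mul_comm]
  · field_simp

end Pool.Agent.H1.RDD
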